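import Pool.Agent.NPX.Stmts

/-!
Row CRN of squad NPX: at most continuum many pairs (measurable set, measurable map).
-/

set_option autoImplicit false

open MeasureTheory Set Topology Cardinal

namespace Pool.Agent.NPX.H45

/-- There are at most continuum many measurable sets in `K`. -/
theorem card_meas (K : Type) [MeasurableSpace K] [MeasurableSpace.CountablyGenerated K] :
    #{t : Set K // MeasurableSet t} ≤ continuum := by
  have h : #{t : Set K // @MeasurableSet K
      (MeasurableSpace.generateFrom (MeasurableSpace.countableGeneratingSet K)) t} ≤ continuum := by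
    apply MeasurableSpace.cardinal_measurableSet_le_continuum
    exact (le_aleph0_iff_set_countable.2
      (MeasurableSpace.countable_countableGeneratingSet (α := K))).trans aleph0_le_continuum
  rw [MeasurableSpace.generateFrom_countableGeneratingSet (α := K)] at h
  exact h

section

variable {K : Type} [MeasurableSpace K]

/-- The code of a pair. -/
def code (e : K → ℕ → Bool) (he : Measurable e)
    (p : {p : Set K × (K → K) // MeasurableSet p.1 ∧ Measurable p.2}) :
    {t : Set K // MeasurableSet t} × (ℕ → {t : Set K // MeasurableSet t}) :=
  (⟨p.1.1, p.2.1⟩, fun n => ⟨{x | e (p.1.2 x) n = true},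
    ((measurable_pi_apply n).comp (he.comp p.2.2)) (measurableSet_singleton true)⟩)

theorem code_injective (e : K → ℕ → Bool) (he : Measurable e) (hi : Function.Injective e) :
    Function.Injective (code e he) := by
  intro p q h
  have h1 : p.1.1 = q.1.1 := congrArg (fun r => (r.1.1 : Set K)) h
  have h2 : ∀ n, {x | e (p.1.2 x) n = true} = {x | e (q.1.2 x) n = true} := fun n =>
    congrArg (fun r => ((r.2 n).1 : Set K)) h
  apply Subtype.ext
  apply Prod.ext h1
  funext x
  apply hi
  funext n
  have h3 : e (p.1.2 x) n = true ↔ e (q.1.2 x) n = true := by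
    have := Set.ext_iff.1 (h2 n) x
    simpa using this
  exact Bool.eq_iff_iff.2 h3

end

/-- CRN. -/
theorem crn : CrnStmt := by
  intro K _ _ _ _ _
  letI := TopologicalSpace.metrizableSpaceMetric K
  haveI : SecondCountableTopology K := inferInstance
  obtain ⟨e, he, hi⟩ := MeasurableSpace.measurable_injection_nat_bool_of_countablySeparated K
  have hK : #{p : Set K × (K → K) // MeasurableSet p.1 ∧ Measurable p.2} ≤ continuum := by
    refine (mk_le_of_injective (code_injective e he hi)).trans ?_
    rw [mk_prod, lift_id, lift_id, mk_arrow, lift_id, lift_id, mk_nat]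
    calc #{t : Set K // MeasurableSet t} * #{t : Set K // MeasurableSet t} ^ ℵ₀
        ≤ continuum * continuum ^ ℵ₀ :=
          mul_le_mul' (card_meas K) (Cardinal.power_le_power_right (card_meas K))
      _ = continuum := by rw [continuum_power_aleph0, continuum_mul_self]
  have hZ : #ℤ ≤ continuum := mk_le_aleph0.trans aleph0_le_continuum
  have hB : #Bool ≤ continuum := mk_le_aleph0.trans aleph0_le_continuum
  calc #(ℤ × Bool × {p : Set K × (K → K) // MeasurableSet p.1 ∧ Measurable p.2})
      = #ℤ * (#Bool * #{p : Set K × (K → K) // MeasurableSet p.1 ∧ Measurable p.2}) := by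
        simp only [mk_prod, lift_id]
    _ ≤ continuum * (continuum * continuum) := mul_le_mul' hZ (mul_le_mul' hB hK)
    _ = continuum := by rw [continuum_mul_self, continuum_mul_self]

end Pool.Agent.NPX.H45
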